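import Pool.Agent.Q213.KS.K4B

/-!
# K4A (project KS, MP_a3b3eb_an)
-/

set_option autoImplicit false

namespace Pool.Agent.Q213.KS

open Module Filter Topology
open Pool.Agent.Q264.KS

universe u

theorem t_K4A : S_K4A.{u} := by
  intro hS2 hB hU hHB X _ _ _ h3 hP z O hz hO hadd x₁ x₂ hx₁ hx₂ hs₁ hs₂ hd1 hd2 hD a b ha hb hh
  classical
  set h : X := a • x₁ + b • x₂ with hhdef
  have hN : ∀ g : X →L[ℝ] ℝ, (∀ y, g y ≤ ‖y‖) → ∀ y₀ ∈ O, g y₀ = ‖y₀‖ → g z = 1 := by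
    intro g hg y₀ hy₀ hgy
    have h1 : g z ≤ 1 := by
      have := hg z
      rwa [hz] at this
    obtain ⟨ε, hε, hbε⟩ := Metric.isOpen_iff.1 hO y₀ hy₀
    have h2 : y₀ - (ε / 2) • z ∈ O := by
      apply hbε
      rw [mem_ball_iff_norm]
      have : y₀ - (ε / 2) • z - y₀ = -((ε / 2) • z) := by abel
      rw [this, norm_neg, norm_smul, hz, Real.norm_of_nonneg (by positivity)]
      linarith
    have h3 := hadd _ h2 (ε / 2) (by positivity)
    rw [sub_add_cancel] at h3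
    have h4 := hg (y₀ - (ε / 2) • z)
    rw [map_sub, map_smul, hgy, smul_eq_mul] at h4
    have h5 : ε / 2 * 1 ≤ ε / 2 * g z := by linarith
    have h6 : 1 ≤ g z := le_of_mul_le_mul_left h5 (by positivity)
    linarith
  have hz1 : D x₁ z = 1 := hN (D x₁) (D_le x₁) x₁ hx₁ (D_self hs₁)
  have hz2 : D x₂ z = 1 := hN (D x₂) (D_le x₂) x₂ hx₂ (D_self hs₂)
  obtain ⟨v, hv0, hv1, hv2⟩ : ∃ v : X, v ≠ 0 ∧ D x₁ v = 0 ∧ D x₂ v = 0 := by
    have h1 : LinearMap.ker (LinearMap.prod ((D x₁ : X →L[ℝ] ℝ) : X →ₗ[ℝ] ℝ)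
        ((D x₂ : X →L[ℝ] ℝ) : X →ₗ[ℝ] ℝ)) ≠ ⊥ := by
      apply LinearMap.ker_ne_bot_of_finrank_lt
      rw [h3, finrank_prod, finrank_self]
      norm_num
    obtain ⟨v, hv, hv0⟩ := Submodule.exists_mem_ne_zero_of_ne_bot h1
    rw [LinearMap.mem_ker] at hv
    refine ⟨v, hv0, ?_, ?_⟩
    · exact congrArg Prod.fst hv
    · exact congrArg Prod.snd hv
  have hBJ : BJ h v := hS2 hB hU X h3 hP x₁ x₂ v hs₁ hs₂ hd1 hd2 hv1 hv2 hv0 hD a b ha hb
  obtain ⟨g, hg, hgh, hgv⟩ := hHB X h v hBJ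
  have hgz : g z = 1 := hN g hg h hh hgh
  obtain ⟨u, hu⟩ : ∃ u, D x₁ u ≠ D x₂ u := by
    by_contra hcon
    push Not at hcon
    exact hD (ContinuousLinearMap.ext hcon)
  have hu' : D x₁ u - D x₂ u ≠ 0 := sub_ne_zero.2 hu
  have hli : LinearIndependent ℝ ![z, u, v] := by
    rw [Fintype.linearIndependent_iff]
    intro c hc
    rw [Fin.sum_univ_three] at hc
    simp only [Matrix.cons_val_zero, Matrix.cons_val_one, Matrix.cons_val] at hc
    have e1 : c 0 * 1 + c 1 * D x₁ u + c 2 * 0 = 0 := by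
      have := congrArg (D x₁) hc
      simpa [hz1, hv1] using this
    have e2 : c 0 * 1 + c 1 * D x₂ u + c 2 * 0 = 0 := by
      have := congrArg (D x₂) hc
      simpa [hz2, hv2] using this
    have hc1 : c 1 = 0 := by
      have e3 : c 1 * (D x₁ u - D x₂ u) = 0 := by linarith
      exact (mul_eq_zero.1 e3).resolve_right hu'
    have hc0 : c 0 = 0 := by
      rw [hc1] at e1
      linarith
    have hc2 : c 2 = 0 := by
      rw [hc0, hc1, zero_smul, zero_smul, zero_add, zero_add] at hc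
      exact (smul_eq_zero.1 hc).resolve_right hv0
    intro i
    fin_cases i
    · exact hc0
    · exact hc1
    · exact hc2
  set α : ℝ := (g u - D x₂ u) / (D x₁ u - D x₂ u) with hα
  have hαβ : ∀ y, g y = α * D x₁ y + (1 - α) * D x₂ y := by
    let bs : Basis (Fin 3) ℝ X := basisOfLinearIndependentOfCardEqFinrank hli (by simp [h3])
    have h1 : ((g : X →L[ℝ] ℝ) : X →ₗ[ℝ] ℝ) =
        α • ((D x₁ : X →L[ℝ] ℝ) : X →ₗ[ℝ] ℝ) + (1 - α) • ((D x₂ : X →L[ℝ] ℝ) : X →ₗ[ℝ] ℝ) := by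
      apply bs.ext
      intro i
      have hbi : bs i = ![z, u, v] i := by
        simp [bs]
      rw [hbi]
      fin_cases i
      · show g z = α * D x₁ z + (1 - α) * D x₂ z
        rw [hgz, hz1, hz2]
        ring
      · show g u = α * D x₁ u + (1 - α) * D x₂ u
        rw [hα]
        field_simp
        ring
      · show g v = α * D x₁ v + (1 - α) * D x₂ v
        rw [hgv, hv1, hv2]
        ring
    intro y
    exact congrArg (fun f : X →ₗ[ℝ] ℝ => f y) h1
  have hα0 : 0 ≤ α := by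
    by_contra hneg
    push Not at hneg
    have h1 := hg x₂
    rw [hαβ, D_self hs₂] at h1
    have h2 : α * (D x₁ x₂ - ‖x₂‖) ≤ 0 := by linarith
    have h4 : ‖x₂‖ ≤ D x₁ x₂ := by
      by_contra h5
      push Not at h5
      have := mul_pos_of_neg_of_neg hneg (sub_neg.2 h5)
      linarith
    have h5 : D x₁ x₂ = ‖x₂‖ := le_antisymm (D_le _ _) h4
    exact hD (hU X x₂ hs₂ (D x₁) (D_le x₁) h5)
  have hα1 : α ≤ 1 := by
    by_contra hneg
    push Not at hneg
    have h1 := hg x₁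
    rw [hαβ, D_self hs₁] at h1
    have h2 : (1 - α) * (D x₂ x₁ - ‖x₁‖) ≤ 0 := by linarith
    have h4 : ‖x₁‖ ≤ D x₂ x₁ := by
      by_contra h5
      push Not at h5
      have := mul_pos_of_neg_of_neg (sub_neg.2 hneg) (sub_neg.2 h5)
      linarith
    have h5 : D x₂ x₁ = ‖x₁‖ := le_antisymm (D_le _ _) h4
    exact hD (hU X x₁ hs₁ (D x₂) (D_le x₂) h5).symm
  apply le_antisymm
  · rw [← hgh, hαβ]
    have h1 : α * D x₁ h ≤ α * max (D x₁ h) (D x₂ h) :=
      mul_le_mul_of_nonneg_left (le_max_left _ _) hα0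
    have h2 : (1 - α) * D x₂ h ≤ (1 - α) * max (D x₁ h) (D x₂ h) :=
      mul_le_mul_of_nonneg_left (le_max_right _ _) (by linarith)
    linarith
  · exact max_le (D_le _ _) (D_le _ _)

end Pool.Agent.Q213.KS
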