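import Pool.Agent.Q264.KS.Stm3

/-!
# K4B (project KS, MP_a3b3eb_an)
-/

set_option autoImplicit false

namespace Pool.Agent.Q213.KS

open Module Filter Topology
open Pool.Agent.Q264.KS

universe u

section

variable {X : Type u} [NormedAddCommGroup X] [NormedSpace ℝ X]

theorem D_le (x y : X) : D x y ≤ ‖y‖ := by
  have h1 : ‖D x‖ ≤ 1 := by
    have := norm_fderiv_le_of_lipschitz ℝ (f := fun z : X => ‖z‖) (x₀ := x) (C := 1)
      lipschitzWith_one_norm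
    simpa [D] using this
  calc D x y ≤ ‖D x y‖ := le_abs_self _
    _ ≤ ‖D x‖ * ‖y‖ := (D x).le_opNorm y
    _ ≤ 1 * ‖y‖ := mul_le_mul_of_nonneg_right h1 (norm_nonneg _)
    _ = ‖y‖ := one_mul _

theorem D_ge (x y : X) : -‖y‖ ≤ D x y := by
  have := D_le x (-y)
  rw [map_neg, norm_neg] at this
  linarith

theorem D_self {x : X} (h : Sm x) : D x x = ‖x‖ := DifferentiableAt.fderiv_norm_self h

theorem dens (hA : S_AE.{u}) [FiniteDimensional ℝ X] (V : Set X) (hV : IsOpen V)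
    (hne : V.Nonempty) : ∃ x ∈ V, Sm x := by
  obtain ⟨x, hx, h⟩ := hA X 0 V hV hne
  have := h 0
  rw [pow_zero, one_smul, sub_zero, zero_add] at this
  exact ⟨x, hx, this⟩

end

theorem t_K4B : S_K4B.{u} := by
  intro hK4A hS2 hB hU hHB hDEN hAE X _ _ _ h3 hP z O hz hO hne hOz hadd
  classical
  obtain ⟨c, hc⟩ := hne
  obtain ⟨r0, hr0, hb0⟩ := Metric.isOpen_iff.1 hO c hc
  set r : ℝ := min r0 (1 / 32) with hr
  have hrpos : 0 < r := by positivity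
  have hr32 : r ≤ 1 / 32 := min_le_right _ _
  have hBO : Metric.ball c r ⊆ O := fun y hy => hb0 (Metric.ball_subset_ball (min_le_left _ _) hy)
  have hnorm : ∀ y ∈ O, 15 / 16 < ‖y‖ ∧ ‖y‖ < 17 / 16 := by
    intro y hy
    have h1 := hOz hy
    rw [mem_ball_iff_norm] at h1
    have h2 : |‖y‖ - ‖z‖| ≤ ‖y - z‖ := abs_norm_sub_norm_le y z
    rw [hz] at h2
    have h3 := abs_le.1 h2
    constructor <;> linarith [h3.1, h3.2]
  have hdist : ∀ x ∈ Metric.ball c r, ∀ y ∈ Metric.ball c r, ‖x - y‖ < 1 / 16 := by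
    intro x hx y hy
    rw [mem_ball_iff_norm] at hx hy
    have h1 : x - y = (x - c) - (y - c) := by abel
    calc ‖x - y‖ = ‖(x - c) - (y - c)‖ := by rw [h1]
      _ ≤ ‖x - c‖ + ‖y - c‖ := norm_sub_le _ _
      _ < 1 / 16 := by linarith
  obtain ⟨x₁, hx₁B, hs₁⟩ := dens hAE (Metric.ball c r) Metric.isOpen_ball
    ⟨c, Metric.mem_ball_self hrpos⟩
  have hx₁O := hBO hx₁B
  have hx₁n := hnorm x₁ hx₁O
  obtain ⟨w, hw0, hw⟩ : ∃ w : X, w ≠ 0 ∧ D x₁ w = 0 := by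
    have h1 : LinearMap.ker ((D x₁ : X →L[ℝ] ℝ) : X →ₗ[ℝ] ℝ) ≠ ⊥ := by
      apply LinearMap.ker_ne_bot_of_finrank_lt
      rw [h3, finrank_self]
      norm_num
    obtain ⟨w, hw, hw0⟩ := Submodule.exists_mem_ne_zero_of_ne_bot h1
    exact ⟨w, hw0, hw⟩
  obtain ⟨x₂, hx₂B, hs₂, hD⟩ : ∃ x₂ ∈ Metric.ball c r, Sm x₂ ∧ D x₂ ≠ D x₁ := by
    by_contra hcon
    push Not at hcon
    obtain ⟨y, hy, hyw⟩ := no_flat (by omega) hP w hw0 (Metric.ball c r) Metric.isOpen_ball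
      ⟨c, Metric.mem_ball_self hrpos⟩
    apply hyw
    intro l
    by_contra hl
    push Not at hl
    obtain ⟨y', ⟨hy'1, hy'2⟩, hy's⟩ := dens hAE (Metric.ball c r ∩ {y : X | ‖y + l • w‖ < ‖y‖})
      (Metric.isOpen_ball.inter (isOpen_lt (by fun_prop) (by fun_prop))) ⟨y, hy, hl⟩
    have h1 := hcon y' hy'1 hy's
    have h2 : BJ y' w := (hB X y' hy's w).2 (by
      have : D y' w = 0 := by rw [h1]; exact hw
      exact this)
    exact absurd (h2 l) (not_le.2 hy'2)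
  have hx₂O := hBO hx₂B
  have hx₂n := hnorm x₂ hx₂O
  have hlt : ‖x₁ + x₂‖ < ‖x₁‖ + ‖x₂‖ := by
    by_contra hcon
    push Not at hcon
    obtain ⟨g, hg1, hg2⟩ := exists_dual_vector'' ℝ (x₁ + x₂)
    have hgle : ∀ y, g y ≤ ‖y‖ := fun y => by
      calc g y ≤ ‖g y‖ := le_abs_self _
        _ ≤ ‖g‖ * ‖y‖ := g.le_opNorm y
        _ ≤ 1 * ‖y‖ := mul_le_mul_of_nonneg_right hg1 (norm_nonneg _)
        _ = ‖y‖ := one_mul _
    have h0 : g x₁ + g x₂ = ‖x₁ + x₂‖ := by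
      rw [← map_add, hg2]
      simp
    have a := hgle x₁
    have b := hgle x₂
    have h1 : g x₁ = ‖x₁‖ := by linarith
    have h2 : g x₂ = ‖x₂‖ := by linarith
    have e1 := hU X x₁ hs₁ g hgle h1
    have e2 := hU X x₂ hs₂ g hgle h2
    exact hD (e2.symm.trans e1)
  set c₀ : ℝ := (‖x₁‖ + ‖x₂‖ - ‖x₁ + x₂‖) / 2 with hc₀
  have hc₀pos : 0 < c₀ := by rw [hc₀]; linarith
  obtain ⟨ε, hε, hbε⟩ := Metric.isOpen_iff.1 Metric.isOpen_ball x₂ hx₂B
  set ρ : ℝ := min ε (c₀ / 2) with hρ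
  have hρpos : 0 < ρ := by positivity
  have hρB : Metric.ball x₂ ρ ⊆ Metric.ball c r :=
    fun y hy => hbε (Metric.ball_subset_ball (min_le_left _ _) hy)
  have hDx : ∀ x ∈ Metric.ball x₂ ρ, Sm x → D x x₁ ≤ ‖x₁‖ - c₀ := by
    intro x hx hs
    rw [mem_ball_iff_norm] at hx
    have h1 : D x x + D x x₁ ≤ ‖x + x₁‖ := by
      rw [← map_add]
      exact D_le x _
    rw [D_self hs] at h1
    have h2 : ‖x + x₁‖ ≤ ‖x₁ + x₂‖ + ‖x - x₂‖ := by
      have : x + x₁ = (x₁ + x₂) + (x - x₂) := by abel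
      rw [this]
      exact norm_add_le _ _
    have h3 : ‖x₂‖ ≤ ‖x‖ + ‖x - x₂‖ := by
      have : x₂ = x - (x - x₂) := by abel
      calc ‖x₂‖ = ‖x - (x - x₂)‖ := by rw [← this]
        _ ≤ _ := norm_sub_le _ _
    have h4 : ρ ≤ c₀ / 2 := min_le_right _ _
    have h5 : ‖x₁ + x₂‖ = ‖x₁‖ + ‖x₂‖ - 2 * c₀ := by rw [hc₀]; ring
    linarith
  set τ : ℝ := c₀ / (c₀ + 5) with hτ
  have hτpos : 0 < τ := by positivity
  have hτ1 : τ < 1 := by
    rw [hτ, div_lt_one (by positivity)]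
    linarith
  have hτc : 4 * τ < (1 - τ) * c₀ := by
    have h1 : 1 - τ = 5 / (c₀ + 5) := by
      rw [hτ]
      field_simp
      ring
    rw [h1, hτ, ← mul_div_assoc, div_mul_eq_mul_div]
    apply div_lt_div_of_pos_right _ (by positivity)
    linarith
  have hcx : ∀ x ∈ Metric.ball x₂ ρ, (1 - τ) • x₁ + τ • x ∈ Metric.ball c r := by
    intro x hx
    exact (convex_ball c r) hx₁B (hρB hx) (by linarith) hτpos.le (by ring)
  have key : ∀ x ∈ Metric.ball x₂ ρ, Sm x →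
      ‖(1 - τ) • x₁ + τ • x‖ = D x₁ ((1 - τ) • x₁ + τ • x) := by
    intro x hx hs
    have hxB := hρB hx
    have hxO := hBO hxB
    have hxn := hnorm x hxO
    have h1 := hDx x hx hs
    have hne : D x₁ ≠ D x := by
      intro h
      rw [← h, D_self hs₁] at h1
      linarith
    have hd := hdist x₁ hx₁B x hxB
    have h2 := hK4A hS2 hB hU hHB X h3 hP z O hz hO hadd x₁ x hx₁O hxO hs₁ hs
      (by linarith [hx₁n.1]) (by linarith [hxn.1]) hne (1 - τ) τ (by linarith) hτpos.le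
      (hBO (hcx x hx))
    rw [h2]
    apply max_eq_left
    rw [map_add, map_add, map_smul, map_smul, map_smul, map_smul, D_self hs₁, D_self hs,
      smul_eq_mul, smul_eq_mul, smul_eq_mul, smul_eq_mul]
    have h4 := D_ge x₁ x
    have h5 : (1 - τ) * D x x₁ ≤ (1 - τ) * (‖x₁‖ - c₀) :=
      mul_le_mul_of_nonneg_left h1 (by linarith)
    have h6 : τ * (-2) ≤ τ * D x₁ x := mul_le_mul_of_nonneg_left (by linarith [hxn.2]) hτpos.le
    have h7 : τ * ‖x‖ ≤ τ * 2 := mul_le_mul_of_nonneg_left (by linarith [hxn.2]) hτpos.le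
    nlinarith
  have key2 : ∀ x ∈ Metric.ball x₂ ρ,
      ‖(1 - τ) • x₁ + τ • x‖ = D x₁ ((1 - τ) • x₁ + τ • x) := by
    intro x hx
    by_contra hcon
    obtain ⟨y, ⟨hy1, hy2⟩, hys⟩ := dens hAE (Metric.ball x₂ ρ ∩
      {y : X | ‖(1 - τ) • x₁ + τ • y‖ ≠ D x₁ ((1 - τ) • x₁ + τ • y)})
      (Metric.isOpen_ball.inter (isOpen_ne_fun (by fun_prop) (by fun_prop))) ⟨x, hx, hcon⟩
    exact hy2 (key y hy1 hys)
  obtain ⟨y, hy, hyw⟩ := no_flat (by omega) hP w hw0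
    (Metric.ball ((1 - τ) • x₁ + τ • x₂) (τ * ρ)) Metric.isOpen_ball
    ⟨_, Metric.mem_ball_self (by positivity)⟩
  apply hyw
  have hx : τ⁻¹ • (y - (1 - τ) • x₁) ∈ Metric.ball x₂ ρ := by
    rw [mem_ball_iff_norm] at hy ⊢
    have h1 : y - ((1 - τ) • x₁ + τ • x₂) = τ • (τ⁻¹ • (y - (1 - τ) • x₁) - x₂) := by
      rw [smul_sub, smul_smul, mul_inv_cancel₀ hτpos.ne', one_smul]
      abel
    rw [h1, norm_smul, Real.norm_of_nonneg hτpos.le] at hy
    exact lt_of_mul_lt_mul_left hy hτpos.le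
  have h1 := key2 _ hx
  have h2 : (1 - τ) • x₁ + τ • τ⁻¹ • (y - (1 - τ) • x₁) = y := by
    rw [smul_smul, mul_inv_cancel₀ hτpos.ne', one_smul]
    abel
  rw [h2] at h1
  intro l
  calc ‖y‖ = D x₁ (y + l • w) := by
        rw [map_add, map_smul, hw, smul_zero, add_zero]
        exact h1
    _ ≤ ‖y + l • w‖ := D_le _ _

end Pool.Agent.Q213.KS
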